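import Pool.Agent.N658.FF.Stm2

/-!
# The gap in terms of projections (helper322, project FF)
-/

set_option autoImplicit false

open scoped BigOperators InnerProductSpace Matrix Classical ComplexOrder

noncomputable section

namespace Pool.Agent.N322.FF

open Pool.Agent.TH235.PP Pool.Agent.N658.FF

/-- the energy of one term is bounded by the distance to its kernel -/
theorem term_le {d R L : ℕ} [NeZero L] (h : BoxOp d R) (hh : h.IsHermitian) (u : Site L)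
    (ψ : EuclideanSpace ℂ (Site L → Fin d)) :
    (ip ψ.ofLp (term h u *ᵥ ψ.ofLp)).re ≤ nJ h * ‖ψ - pr (Vt h L u) ψ‖ ^ 2 := by
  set T := Matrix.toEuclideanLin (term h u) with hT
  have hsym : T.IsSymmetric := (Matrix.isSymmetric_toEuclideanLin_iff).2 (term_herm h hh u)
  set p := pr (Vt h L u) ψ with hp
  have hpm : p ∈ Vt h L u := by
    rw [hp]
    exact Submodule.starProjection_apply_mem _ _
  have hTp : T p = 0 := LinearMap.mem_ker.1 hpm
  set ψ' := ψ - p with hψ'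
  have h1 : T ψ = T ψ' := by
    rw [hψ', map_sub, hTp, sub_zero]
  have h2 : ip ψ.ofLp (term h u *ᵥ ψ.ofLp) = ⟪T ψ', ψ'⟫_ℂ := by
    rw [ip_eq]
    show ⟪ψ, T ψ⟫_ℂ = _
    rw [h1, ← hsym ψ ψ', h1]
  have h3 : ‖T ψ'‖ ≤ nJ h * ‖ψ'‖ := by
    have h4 := nr_mulVec (term h u) ψ'.ofLp
    refine (show ‖T ψ'‖ ≤ _ from h4).trans ?_
    exact mul_le_mul_of_nonneg_right (norm_term h u) (norm_nonneg _)
  rw [h2]
  calc (⟪T ψ', ψ'⟫_ℂ).re ≤ ‖⟪T ψ', ψ'⟫_ℂ‖ := Complex.re_le_norm _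
    _ ≤ ‖T ψ'‖ * ‖ψ'‖ := norm_inner_le_norm _ _
    _ ≤ nJ h * ‖ψ'‖ * ‖ψ'‖ := mul_le_mul_of_nonneg_right h3 (norm_nonneg _)
    _ = nJ h * ‖ψ'‖ ^ 2 := by ring

theorem gapT : StmGapT := by
  intro d R L _ _ _ h hpos Δ _ hgap A ψ hψ
  have h1 := hgap A ψ.ofLp (fun χ hχ => by
    rw [ip_eq]
    refine (Submodule.mem_orthogonal _ _).1 hψ (WithLp.toLp 2 χ) ?_
    unfold G
    simp only [Submodule.mem_iInf]
    intro u hu
    apply LinearMap.mem_ker.2
    show WithLp.toLp 2 (term h u *ᵥ χ) = 0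
    rw [hχ u hu]
    rfl)
  have h2 : normSq ψ.ofLp = ‖ψ‖ ^ 2 := by
    rw [← nr_sq]
    rfl
  rw [h2] at h1
  have h3 : ∑ u ∈ A, (ip ψ.ofLp (term h u *ᵥ ψ.ofLp)).re ≤
      (nJ h + 1) * ∑ u ∈ A, ‖ψ - pr (Vt h L u) ψ‖ ^ 2 := by
    rw [Finset.mul_sum]
    refine Finset.sum_le_sum fun u _ => (term_le h hpos.isHermitian u ψ).trans ?_
    refine mul_le_mul_of_nonneg_right ?_ (by positivity)
    linarith
  have h4 : 0 < nJ h + 1 := by
    have := nJ_nonneg h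
    linarith
  rw [div_mul_eq_mul_div, div_le_iff₀ h4]
  linarith

end Pool.Agent.N322.FF
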